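import Pool.Agent.H1.UG.Liou

/-!
# Vanishing of jet polynomials with negative twist on Brody curves
-/

set_option autoImplicit false

open MvPolynomial Filter Topology Metric Set

namespace Pool.Agent.H1.UG

open Pool.Agent.H47.KB Pool.Agent.H47.UG

/-- The jets of `g / g_i` at `z`. -/
noncomputable def J {n : ℕ} (g : ℂ → Vec n) (i : Fin (n + 2)) (z : ℂ) : ℕ × Fin (n + 2) → ℂ :=
  fun p => iteratedDeriv p.1 (fun w => g w p.2 / g w i) z

theorem norm_eval_le {σ : Type*} {P : MvPolynomial σ ℂ} {x : σ → ℂ} {B : σ → ℝ} (hx : ∀ i, ‖x i‖ ≤ B i) :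
    ‖eval x P‖ ≤ ∑ m ∈ P.support, ‖coeff m P‖ * ∏ i ∈ m.support, B i ^ m i := by
  rw [eval_eq]
  refine (norm_sum_le _ _).trans (Finset.sum_le_sum fun m _ => ?_)
  rw [norm_mul, norm_prod]
  refine mul_le_mul_of_nonneg_left (Finset.prod_le_prod (fun _ _ => norm_nonneg _) fun i _ => ?_) (norm_nonneg _)
  rw [norm_pow]
  exact pow_le_pow_left₀ (norm_nonneg _) (hx i) _

theorem differentiableAt_eval {σ : Type*} {P : MvPolynomial σ ℂ} {x : ℂ → σ → ℂ} {z : ℂ}
    (hx : ∀ i, DifferentiableAt ℂ (fun w => x w i) z) : DifferentiableAt ℂ (fun w => eval (x w) P) z := by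
  induction P using MvPolynomial.induction_on with
  | C a => simp
  | add p q hp hq =>
    simp only [map_add]
    exact hp.add hq
  | mul_X p i hp =>
    simp only [map_mul, eval_X]
    exact hp.mul (hx i)

theorem differentiableAt_jet {f : ℂ → ℂ} {U : Set ℂ} (hU : IsOpen U) (hf : DifferentiableOn ℂ f U) {z : ℂ}
    (hz : z ∈ U) (s : ℕ) : DifferentiableAt ℂ (iteratedDeriv s f) z := by
  have h1 : AnalyticOnNhd ℂ f U := hf.analyticOnNhd hU
  rw [iteratedDeriv_eq_iterate]
  exact (h1.iterated_deriv s z hz).differentiableAt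

theorem differentiableAt_J {n : ℕ} {g : ℂ → Vec n} (hg : Differentiable ℂ g) {i : Fin (n + 2)} {z : ℂ}
    (hz : g z i ≠ 0) (p : ℕ × Fin (n + 2)) : DifferentiableAt ℂ (fun w => J g i w p) z := by
  have hgi : ∀ i, Differentiable ℂ fun z => g z i := fun i => differentiable_pi.1 hg i
  have hU : IsOpen {w | g w i ≠ 0} := isOpen_ne_fun (hgi i).continuous continuous_const
  exact differentiableAt_jet hU (fun w hw => ((hgi p.2 w).div (hgi i w) hw).differentiableWithinAt) hz p.1

/-- VANISHING: jet polynomials `P i` on the charts `x_i ≠ 0` which fit together to a section of `O(-b)` along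
the curve, `b > 0`, vanish along non constant Brody curves. -/
theorem brody_vanish {n : ℕ} {F : Frm n} {g : ℂ → Vec n} (hg : Brody F g) (hnc : ¬ IsConst g) {b : ℕ}
    (hb : 0 < b) (P : Fin (n + 2) → MvPolynomial (ℕ × Fin (n + 2)) ℂ)
    (hcomp : ∀ i j z, g z i ≠ 0 → g z j ≠ 0 →
      (g z i ^ b)⁻¹ * eval (J g i z) (P i) = (g z j ^ b)⁻¹ * eval (J g j z) (P j)) :
    ∀ i z, g z i ≠ 0 → eval (J g i z) (P i) = 0 := by
  classical
  obtain ⟨B, hB⟩ := jets_bounded hg
  have hgi : ∀ i, Differentiable ℂ fun z => g z i := fun i => differentiable_pi.1 hg.1.1 i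
  have key := glue_vanish hg.1.1 hg.1.2.1 hnc hb (fun i z => (g z i ^ b)⁻¹ * eval (J g i z) (P i))
    (C := ∑ i, ∑ m ∈ (P i).support, ‖coeff m (P i)‖ * ∏ p ∈ m.support, B p.1 ^ m p) ?_ hcomp ?_
  · intro i z hz
    have h := key i z hz
    simp only [mul_eq_zero, inv_eq_zero, pow_eq_zero_iff', hz, false_and, false_or] at h
    exact h
  · intro i z hz
    refine DifferentiableAt.mul ?_ ?_
    · exact ((hgi i z).pow b).inv (pow_ne_zero _ hz)
    · exact differentiableAt_eval fun p => differentiableAt_J hg.1.1 hz p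
  · intro z i hz hi
    have h1 : ‖eval (J g i z) (P i)‖ ≤
        ∑ m ∈ (P i).support, ‖coeff m (P i)‖ * ∏ p ∈ m.support, B p.1 ^ m p :=
      norm_eval_le fun p => hB z i hi p.1 p.2
    have h2 : ‖(g z i ^ b)⁻¹ * eval (J g i z) (P i)‖ * ‖g z i‖ ^ b = ‖eval (J g i z) (P i)‖ := by
      rw [norm_mul, norm_inv, norm_pow]
      have : ‖g z i‖ ^ b ≠ 0 := pow_ne_zero _ (norm_ne_zero_iff.2 hz)
      field_simp
    rw [h2]
    refine h1.trans ?_
    have hnn : ∀ i ∈ Finset.univ, 0 ≤ ∑ m ∈ (P i).support, ‖coeff m (P i)‖ * ∏ p ∈ m.support, B p.1 ^ m p := by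
      intro i _
      refine Finset.sum_nonneg fun m _ => mul_nonneg (norm_nonneg _) (Finset.prod_nonneg fun p _ => ?_)
      exact pow_nonneg ((norm_nonneg _).trans (hB z _ hi p.1 p.2)) _
    exact Finset.single_le_sum hnn (Finset.mem_univ i)

end Pool.Agent.H1.UG
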