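import Pool.Agent.H47.UG.BDefs

/-!
# Brody curves: Liouville, Cauchy estimates, gluing over the charts
-/

set_option autoImplicit false

open MvPolynomial Filter Topology Metric Set

namespace Pool.Agent.H1.UG

open Pool.Agent.H47.KB Pool.Agent.H47.UG

/-- LIOUVILLE: an entire function with `|ψ| ‖g‖ ^ b` bounded is zero, if `g` is a non constant curve. -/
theorem liouville {n : ℕ} {g : ℂ → Vec n} (hg : Differentiable ℂ g) (h0 : ∀ z, g z ≠ 0) (hnc : ¬ IsConst g)
    {ψ : ℂ → ℂ} (hψ : Differentiable ℂ ψ) {b : ℕ} (hb : 0 < b) {C : ℝ}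
    (hC : ∀ z, ‖ψ z‖ * ‖g z‖ ^ b ≤ C) : ∀ z, ψ z = 0 := by
  by_contra hcon
  push Not at hcon
  obtain ⟨z1, hz1⟩ := hcon
  have hgi : ∀ i, Differentiable ℂ fun z => g z i := fun i => differentiable_pi.1 hg i
  have hc : ∀ i z, ψ z * g z i ^ b = ψ z1 * g z1 i ^ b := by
    intro i z
    have hd : Differentiable ℂ fun z => ψ z * g z i ^ b := hψ.mul ((hgi i).pow b)
    refine hd.apply_eq_apply_of_bounded ?_ z z1
    rw [isBounded_iff_forall_norm_le]
    refine ⟨C, ?_⟩
    rintro _ ⟨w, rfl⟩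
    simp only [norm_mul, norm_pow]
    refine le_trans ?_ (hC w)
    gcongr
    exact norm_le_pi_norm _ _
  obtain ⟨i, hi⟩ : ∃ i, g z1 i ≠ 0 := by
    by_contra h
    push Not at h
    exact h0 z1 (funext h)
  have hne : ∀ z, ψ z * g z i ^ b ≠ 0 := fun z => by
    rw [hc]
    exact mul_ne_zero hz1 (pow_ne_zero _ hi)
  have hψne : ∀ z, ψ z ≠ 0 := fun z => left_ne_zero_of_mul (hne z)
  have hgne : ∀ z, g z i ≠ 0 := fun z h => hne z (by rw [h, zero_pow hb.ne', mul_zero])
  apply hnc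
  have hq : ∀ j z, g z j / g z i = g 0 j / g 0 i := by
    intro j z
    have hd : Differentiable ℂ fun z => g z j / g z i := (hgi j).div (hgi i) hgne
    refine hd.apply_eq_apply_of_bounded ?_ z 0
    rw [isBounded_iff_forall_norm_le]
    refine ⟨1 + ‖(g z1 j / g z1 i) ^ b‖, ?_⟩
    rintro _ ⟨w, rfl⟩
    have h1 : (g w j / g w i) ^ b = (g z1 j / g z1 i) ^ b := by
      rw [div_pow, div_pow, div_eq_div_iff (pow_ne_zero _ (hgne w)) (pow_ne_zero _ hi)]
      have h2 := hc j w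
      have h3 := hc i w
      have h4 : ψ w * ψ z1 ≠ 0 := mul_ne_zero (hψne w) hz1
      apply mul_left_cancel₀ h4
      calc ψ w * ψ z1 * (g w j ^ b * g z1 i ^ b) = (ψ w * g w j ^ b) * (ψ z1 * g z1 i ^ b) := by ring
        _ = (ψ z1 * g z1 j ^ b) * (ψ w * g w i ^ b) := by rw [h2, h3]
        _ = _ := by ring
    rw [← h1]
    simp only
    rw [norm_pow]
    rcases le_total ‖g w j / g w i‖ 1 with h | h
    · have : 0 ≤ ‖g w j / g w i‖ ^ b := by positivity
      linarith
    · have := le_self_pow₀ h hb.ne'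
      linarith
  intro z
  refine ⟨g z i / g 0 i, funext fun j => ?_⟩
  have h1 := hq j z
  have h2 := hgne z
  have h3 := hgne 0
  rw [Pi.smul_apply, smul_eq_mul]
  field_simp at h1 ⊢
  linear_combination h1

/-- The Brody condition propagates: where `|g_i|` is maximal, `‖g‖ ≤ 2 |g_i|` on a disc of fixed radius. -/
theorem half_disc {n : ℕ} {g : ℂ → Vec n} (hg : Differentiable ℂ g) (h0 : ∀ z, g z ≠ 0) {C : ℝ}
    (hC : ∀ (z : ℂ) (i j : Fin (n + 2)), ‖g z i * deriv g z j - g z j * deriv g z i‖ ≤ C * ‖g z‖ ^ 2)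
    {z : ℂ} {i : Fin (n + 2)} (hi : ∀ j, ‖g z j‖ ≤ ‖g z i‖) {r : ℝ} (hr : 4 * C * r < 1) {w : ℂ}
    (hw : ‖w - z‖ ≤ r) (hC0 : 0 ≤ C) : ‖g w‖ ≤ 2 * ‖g w i‖ := by
  classical
  have hgi : ∀ i, Differentiable ℂ fun z => g z i := fun i => differentiable_pi.1 hg i
  have hdg : ∀ z j, deriv g z j = deriv (fun z => g z j) z := fun z j => by
    rw [deriv_pi fun j => (hgi j).differentiableAt]
  set γ : ℝ → ℂ := fun t => z + t * (w - z) with hγ
  have hγc : Continuous γ := by fun_prop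
  have hgγ : Continuous fun t => g (γ t) := hg.continuous.comp hγc
  have hgiγ : ∀ j, Continuous fun t => g (γ t) j := fun j => (hgi j).continuous.comp hγc
  set Bad : Set ℝ := {t | t ∈ Icc (0 : ℝ) 1 ∧ 2 * ‖g (γ t) i‖ < ‖g (γ t)‖} with hBad
  have h1 : ¬ Bad.Nonempty := by
    intro hne
    set τ := sInf Bad with hτ
    have hbdd : BddBelow Bad := ⟨0, fun t ht => ht.1.1⟩
    have hτcl : τ ∈ closure Bad := csInf_mem_closure hne hbdd
    have hτ0 : 0 ≤ τ := le_csInf hne fun t ht => ht.1.1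
    have hτ1 : τ ≤ 1 := by
      obtain ⟨t, ht⟩ := hne
      exact (csInf_le hbdd ht).trans ht.1.2
    have hlt : ∀ t, 0 ≤ t → t < τ → ‖g (γ t)‖ ≤ 2 * ‖g (γ t) i‖ := by
      intro t ht0 ht
      by_contra h
      push Not at h
      exact absurd (csInf_le hbdd ⟨⟨ht0, ht.le.trans hτ1⟩, h⟩) (not_le.2 ht)
    have hle : ∀ t, 0 ≤ t → t ≤ τ → ‖g (γ t)‖ ≤ 2 * ‖g (γ t) i‖ := by
      intro t ht0 ht
      rcases ht.lt_or_eq with h | h
      · exact hlt t ht0 h
      rcases hτ0.lt_or_eq with h' | h'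
      · have hcl : IsClosed {t | ‖g (γ t)‖ ≤ 2 * ‖g (γ t) i‖} :=
          isClosed_le hgγ.norm (continuous_const.mul (hgiγ i).norm)
        have h2 : closure (Ico 0 τ) ⊆ {t | ‖g (γ t)‖ ≤ 2 * ‖g (γ t) i‖} :=
          closure_minimal (fun t ht => hlt t ht.1 ht.2) hcl
        rw [closure_Ico h'.ne] at h2
        exact h2 ⟨ht0, ht⟩
      · have h3 : γ t = z := by
          rw [h, ← h']
          simp [hγ]
        rw [h3]
        have h4 : ‖g z‖ ≤ ‖g z i‖ := (pi_norm_le_iff_of_nonneg (norm_nonneg _)).2 hi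
        have h5 := norm_nonneg (g z i)
        linarith
    have hnz : ∀ t, 0 ≤ t → t ≤ τ → g (γ t) i ≠ 0 := by
      intro t ht0 ht h
      have h2 := hle t ht0 ht
      rw [h, norm_zero, mul_zero] at h2
      exact h0 _ (norm_le_zero_iff.1 h2)
    have hlt2 : ‖g (γ τ)‖ < 2 * ‖g (γ τ) i‖ := by
      have hpos : 0 < ‖g (γ τ) i‖ := norm_pos_iff.2 (hnz τ hτ0 le_rfl)
      rw [pi_norm_lt_iff (by positivity)]
      intro j
      have hder : ∀ t ∈ Icc (0 : ℝ) τ, HasDerivWithinAt (fun t : ℝ => g (γ t) j / g (γ t) i)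
          ((deriv (fun z => g z j) (γ t) * g (γ t) i - g (γ t) j * deriv (fun z => g z i) (γ t)) / (g (γ t) i) ^ 2 *
            (w - z)) (Icc 0 τ) t := by
        intro t ht
        have e1 : HasDerivAt γ (w - z) t := by
          have := ((hasDerivAt_id t).ofReal_comp.mul_const (w - z)).const_add z
          simpa [hγ] using this
        have e2 : HasDerivAt (fun z => g z j / g z i)
            ((deriv (fun z => g z j) (γ t) * g (γ t) i - g (γ t) j * deriv (fun z => g z i) (γ t)) /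
              (g (γ t) i) ^ 2) (γ t) :=
          (hgi j (γ t)).hasDerivAt.div (hgi i (γ t)).hasDerivAt (hnz t ht.1 ht.2)
        exact (e2.comp t e1).hasDerivWithinAt
      have hbd : ∀ t ∈ Ico (0 : ℝ) τ, ‖(deriv (fun z => g z j) (γ t) * g (γ t) i -
          g (γ t) j * deriv (fun z => g z i) (γ t)) / (g (γ t) i) ^ 2 * (w - z)‖ ≤ 4 * C * r := by
        intro t ht
        have e1 := hC (γ t) i j
        rw [hdg, hdg] at e1
        have e2 := hle t ht.1 ht.2.le
        have e3 : 0 < ‖g (γ t) i‖ := norm_pos_iff.2 (hnz t ht.1 ht.2.le)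
        rw [norm_mul, norm_div, norm_pow]
        have e4 : ‖deriv (fun z => g z j) (γ t) * g (γ t) i - g (γ t) j * deriv (fun z => g z i) (γ t)‖ ≤
            4 * C * ‖g (γ t) i‖ ^ 2 := by
          have e5 : deriv (fun z => g z j) (γ t) * g (γ t) i = g (γ t) i * deriv (fun z => g z j) (γ t) :=
            mul_comm _ _
          rw [e5]
          refine e1.trans ?_
          have e6 : ‖g (γ t)‖ ^ 2 ≤ (2 * ‖g (γ t) i‖) ^ 2 := by gcongr
          nlinarith
        have e7 : ‖deriv (fun z => g z j) (γ t) * g (γ t) i - g (γ t) j * deriv (fun z => g z i) (γ t)‖ /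
            ‖g (γ t) i‖ ^ 2 ≤ 4 * C := by
          rw [div_le_iff₀ (by positivity)]
          exact e4
        exact mul_le_mul e7 hw (norm_nonneg _) (by positivity)
      have hmv := norm_image_sub_le_of_norm_deriv_le_segment' hder hbd τ ⟨hτ0, le_rfl⟩
      have e8 : γ 0 = z := by simp [hγ]
      simp only [e8] at hmv
      have hzi : 0 < ‖g z i‖ := by
        have := hnz 0 le_rfl hτ0
        rw [e8] at this
        exact norm_pos_iff.2 this
      have e9 : ‖g z j / g z i‖ ≤ 1 := by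
        rw [norm_div, div_le_one hzi]
        exact hi j
      have e10 : ‖g (γ τ) j / g (γ τ) i‖ < 2 := by
        have e11 : ‖g (γ τ) j / g (γ τ) i‖ ≤ ‖g (γ τ) j / g (γ τ) i - g z j / g z i‖ + ‖g z j / g z i‖ := by
          have := norm_add_le (g (γ τ) j / g (γ τ) i - g z j / g z i) (g z j / g z i)
          rwa [sub_add_cancel] at this
        have hr0 : 0 ≤ r := (norm_nonneg _).trans hw
        have e12 : 4 * C * r * (τ - 0) ≤ 4 * C * r := by
          have : 0 ≤ 4 * C * r := by positivity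
          nlinarith
        linarith
      rw [norm_div, div_lt_iff₀ hpos] at e10
      exact e10
    have hopen : IsOpen {t | ‖g (γ t)‖ < 2 * ‖g (γ t) i‖} :=
      isOpen_lt hgγ.norm (continuous_const.mul (hgiγ i).norm)
    obtain ⟨t, ht1, ht2⟩ := mem_closure_iff.1 hτcl _ hopen hlt2
    exact absurd ht1 (not_lt.2 ht2.2.le)
  by_contra h
  push Not at h
  apply h1
  refine ⟨1, ⟨zero_le_one, le_rfl⟩, ?_⟩
  simpa [hγ] using h

/-- JETS: the jets of `g / g_i` are bounded at the points where `|g_i|` is maximal. -/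
theorem jets_bounded {n : ℕ} {F : Frm n} {g : ℂ → Vec n} (hg : Brody F g) :
    ∃ B : ℕ → ℝ, ∀ (z : ℂ) (i : Fin (n + 2)), (∀ j, ‖g z j‖ ≤ ‖g z i‖) → ∀ (s : ℕ) (j : Fin (n + 2)),
      ‖iteratedDeriv s (fun w => g w j / g w i) z‖ ≤ B s := by
  obtain ⟨⟨hd, h0, -⟩, C, hC⟩ := hg
  have hgi : ∀ i, Differentiable ℂ fun z => g z i := fun i => differentiable_pi.1 hd i
  have hC' : ∀ (z : ℂ) (i j : Fin (n + 2)), ‖g z i * deriv g z j - g z j * deriv g z i‖ ≤ |C| * ‖g z‖ ^ 2 :=
    fun z i j => (hC z i j).trans (mul_le_mul_of_nonneg_right (le_abs_self C) (by positivity))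
  set r : ℝ := 1 / (4 * |C| + 1) with hr
  have hr0 : 0 < r := by positivity
  have hr1 : 4 * |C| * r < 1 := by
    rw [hr, mul_one_div, div_lt_one (by positivity)]
    linarith
  refine ⟨fun s => s.factorial * 2 / r ^ s, fun z i hi s j => ?_⟩
  have hdisc : ∀ w ∈ closedBall z r, ‖g w‖ ≤ 2 * ‖g w i‖ := by
    intro w hw
    rw [mem_closedBall, dist_eq_norm] at hw
    exact half_disc hd h0 hC' hi hr1 hw (abs_nonneg C)
  have hne : ∀ w ∈ closedBall z r, g w i ≠ 0 := by
    intro w hw h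
    have h2 := hdisc w hw
    rw [h, norm_zero, mul_zero] at h2
    exact h0 _ (norm_le_zero_iff.1 h2)
  have hdo : DifferentiableOn ℂ (fun w => g w j / g w i) {w | g w i ≠ 0} := fun w hw =>
    ((hgi j w).div (hgi i w) hw).differentiableWithinAt
  refine Complex.norm_iteratedDeriv_le_of_forall_mem_sphere_norm_le s hr0
    (hdo.diffContOnCl_ball fun w hw => hne w hw) fun w hw => ?_
  have hw' : w ∈ closedBall z r := sphere_subset_closedBall hw
  rw [norm_div, div_le_iff₀ (norm_pos_iff.2 (hne w hw'))]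
  exact (norm_le_pi_norm (g w) j).trans (hdisc w hw')

/-- An index where the coordinate is maximal. -/
theorem exists_max {n : ℕ} (v : Vec n) : ∃ i, ∀ j, ‖v j‖ ≤ ‖v i‖ := by
  obtain ⟨i, -, hi⟩ := Finset.exists_max_image Finset.univ (fun i => ‖v i‖) ⟨0, Finset.mem_univ _⟩
  exact ⟨i, fun j => hi j (Finset.mem_univ _)⟩

/-- GLUE: functions on the charts. -/
theorem glue_vanish {n : ℕ} {g : ℂ → Vec n} (hg : Differentiable ℂ g) (h0 : ∀ z, g z ≠ 0) (hnc : ¬ IsConst g)
    {b : ℕ} (hb : 0 < b) (ψ : Fin (n + 2) → ℂ → ℂ)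
    (hψ : ∀ i z, g z i ≠ 0 → DifferentiableAt ℂ (ψ i) z)
    (hcomp : ∀ i j z, g z i ≠ 0 → g z j ≠ 0 → ψ i z = ψ j z) {C : ℝ}
    (hC : ∀ z i, g z i ≠ 0 → (∀ j, ‖g z j‖ ≤ ‖g z i‖) → ‖ψ i z‖ * ‖g z i‖ ^ b ≤ C) :
    ∀ i z, g z i ≠ 0 → ψ i z = 0 := by
  classical
  have hgi : ∀ i, Differentiable ℂ fun z => g z i := fun i => differentiable_pi.1 hg i
  have hex : ∀ z, ∃ i, g z i ≠ 0 := by
    intro z
    by_contra h
    push Not at h
    exact h0 z (funext h)
  choose ix hix using hex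
  have hall : ∀ z, ψ (ix z) z = 0 := by
    refine liouville (ψ := fun z => ψ (ix z) z) hg h0 hnc ?_ hb (C := C) ?_
    · intro z
      have h1 : ∀ᶠ w in 𝓝 z, g w (ix z) ≠ 0 := (hgi (ix z)).continuous.continuousAt.eventually_ne (hix z)
      refine (hψ (ix z) z (hix z)).congr_of_eventuallyEq ?_
      filter_upwards [h1] with w hw
      exact hcomp _ _ w (hix w) hw
    · intro z
      obtain ⟨i, hi⟩ := exists_max (g z)
      have h1 : g z i ≠ 0 := by
        intro h
        apply hix z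
        have := hi (ix z)
        rw [h, norm_zero] at this
        exact norm_le_zero_iff.1 this
      have h2 : ‖g z‖ ≤ ‖g z i‖ := (pi_norm_le_iff_of_nonneg (norm_nonneg _)).2 hi
      have h3 := hC z i h1 hi
      have h4 : ψ (ix z) z = ψ i z := hcomp _ _ z (hix z) h1
      simp only [h4]
      refine le_trans ?_ h3
      gcongr
  intro i z hz
  rw [hcomp i (ix z) z hz (hix z)]
  exact hall z

end Pool.Agent.H1.UG
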