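import Pool.Agent.H47.UG.Ch

/-!
# LOCGG: the lattice `Gr_{m,q}(e)` on the chart `(i,j)`
-/

set_option autoImplicit false

open MvPolynomial

namespace Pool.Agent.H47.UG.FF

variable {K : Type} [Field K] {n d : ℕ} {F : HP K n} (T : FF d F)

theorem mem_OO (e : ℤ) (i : Fin (n + 2)) (v : T.L) : v ∈ T.OO e i ↔ ∃ a ∈ T.A i, v = T.x i ^ e * a := by
  constructor
  · intro h
    refine Submodule.span_induction ?_ ?_ ?_ ?_ h
    · rintro v hv
      exact hv
    · exact ⟨0, Subalgebra.zero_mem _, by simp⟩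
    · rintro v w _ _ ⟨a, ha, rfl⟩ ⟨b, hb, rfl⟩
      exact ⟨a + b, Subalgebra.add_mem _ ha hb, by ring⟩
    · rintro c v _ ⟨a, ha, rfl⟩
      exact ⟨c • a, Subalgebra.smul_mem _ ha c, by rw [mul_smul_comm]⟩
  · rintro ⟨a, ha, rfl⟩
    exact Submodule.subset_span ⟨a, ha, rfl⟩

theorem OO_mul {e e' : ℤ} {i : Fin (n + 2)} {v w : T.L} (hv : v ∈ T.OO e i) (hw : w ∈ T.OO e' i) :
    v * w ∈ T.OO (e + e') i := by
  rw [mem_OO] at *
  obtain ⟨a, ha, rfl⟩ := hv
  obtain ⟨b, hb, rfl⟩ := hw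
  exact ⟨a * b, Subalgebra.mul_mem _ ha hb, by rw [zpow_add₀ (T.x_ne i)]; ring⟩

theorem A_mul_OO {e : ℤ} {i : Fin (n + 2)} {v w : T.L} (hv : v ∈ T.A i) (hw : w ∈ T.OO e i) :
    v * w ∈ T.OO e i := by
  have h : v ∈ T.OO 0 i := (T.mem_OO 0 i v).2 ⟨v, hv, by simp⟩
  simpa using T.OO_mul h hw

section locA

variable {e e' : ℤ} {i j : Fin (n + 2)} (hu : T.u i j ∈ T.A i)

include hu

theorem locA_add {a b : T.L} (ha : a ∈ T.locA e i j) (hb : b ∈ T.locA e i j) : a + b ∈ T.locA e i j := by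
  obtain ⟨N, hN⟩ := ha
  obtain ⟨M, hM⟩ := hb
  refine ⟨N + M, ?_⟩
  have h : T.u i j ^ (N + M) * (a + b) =
      T.u i j ^ M * (T.u i j ^ N * a) + T.u i j ^ N * (T.u i j ^ M * b) := by ring
  rw [h]
  exact Submodule.add_mem _ (T.A_mul_OO (Subalgebra.pow_mem _ hu _) hN)
    (T.A_mul_OO (Subalgebra.pow_mem _ hu _) hM)

omit hu in
theorem locA_zero : (0 : T.L) ∈ T.locA e i j := ⟨0, by simp⟩

omit hu in
theorem locA_mul {a b : T.L} (ha : a ∈ T.locA e i j) (hb : b ∈ T.locA e' i j) :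
    a * b ∈ T.locA (e + e') i j := by
  obtain ⟨N, hN⟩ := ha
  obtain ⟨M, hM⟩ := hb
  refine ⟨N + M, ?_⟩
  have h : T.u i j ^ (N + M) * (a * b) = (T.u i j ^ N * a) * (T.u i j ^ M * b) := by ring
  rw [h]
  exact T.OO_mul hN hM

theorem locA_sum {ι : Type*} {s : Finset ι} {f : ι → T.L} (h : ∀ t ∈ s, f t ∈ T.locA e i j) :
    ∑ t ∈ s, f t ∈ T.locA e i j := by
  classical
  induction s using Finset.induction_on with
  | empty => simpa using T.locA_zero
  | insert a s ha ih =>
    rw [Finset.sum_insert ha]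
    exact T.locA_add hu (h a (Finset.mem_insert_self _ _)) (ih fun t ht => h t (Finset.mem_insert_of_mem ht))

omit hu in
theorem locA_of_A {a : T.L} (ha : a ∈ T.A i) : a ∈ T.locA 0 i j :=
  ⟨0, by simpa using (T.mem_OO 0 i a).2 ⟨a, ha, by simp⟩⟩

omit hu in
theorem locA_of_OO {a : T.L} (ha : a ∈ T.OO e i) : a ∈ T.locA e i j := ⟨0, by simpa using ha⟩

omit hu in
theorem locA_div {a : T.L} (N : ℕ) (hne : T.u i j ≠ 0) (ha : a ∈ T.locA e i j) :
    (T.u i j ^ N)⁻¹ * a ∈ T.locA e i j := by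
  obtain ⟨M, hM⟩ := ha
  refine ⟨N + M, ?_⟩
  have h : T.u i j ^ (N + M) * ((T.u i j ^ N)⁻¹ * a) = T.u i j ^ M * a := by
    have : T.u i j ^ N ≠ 0 := pow_ne_zero _ hne
    rw [pow_add]
    field_simp
  rw [h]
  exact hM

end locA

/-- The polynomials in the jet coordinates of the chart `(i,j)` with coefficients in `O(e)`, of order `≤ k`,
weight `m` and degree `q`. -/
def Bih (k : ℕ) (e : ℤ) (m q : ℕ) (i j : Fin (n + 2)) (w : T.BB) : Prop :=
  ∀ b, coeff b w ≠ 0 → (∀ p ∈ b.support, p.1 < k) ∧ Finsupp.weight FF.w b = m ∧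
      b.degree = q ∧ coeff b w ∈ T.locA e i j

namespace Bih

variable {T} {k : ℕ} {e e' : ℤ} {m m' q q' : ℕ} {i j : Fin (n + 2)}

theorem coeff_mem {w : T.BB} (h : T.Bih k e m q i j w) (b : ℕ × Fin n →₀ ℕ) : coeff b w ∈ T.locA e i j := by
  by_cases hb : coeff b w = 0
  · rw [hb]
    exact T.locA_zero
  · exact (h b hb).2.2.2

theorem zero : T.Bih k e m q i j 0 := fun b hb => absurd (coeff_zero b) hb

theorem add (hu : T.u i j ∈ T.A i) {v w : T.BB} (hv : T.Bih k e m q i j v) (hw : T.Bih k e m q i j w) :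
    T.Bih k e m q i j (v + w) := by
  intro b hb
  rw [coeff_add] at hb ⊢
  have h1 : coeff b v + coeff b w ∈ T.locA e i j := T.locA_add hu (hv.coeff_mem b) (hw.coeff_mem b)
  by_cases h : coeff b v = 0
  · have h2 : coeff b w ≠ 0 := fun h3 => hb (by rw [h, h3, add_zero])
    obtain ⟨h3, h4, h5, -⟩ := hw b h2
    exact ⟨h3, h4, h5, h1⟩
  · obtain ⟨h3, h4, h5, -⟩ := hv b h
    exact ⟨h3, h4, h5, h1⟩

theorem mul (hu : T.u i j ∈ T.A i) {v w : T.BB} (hv : T.Bih k e m q i j v) (hw : T.Bih k e' m' q' i j w) :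
    T.Bih k (e + e') (m + m') (q + q') i j (v * w) := by
  classical
  intro b hb
  have h1 : coeff b (v * w) ∈ T.locA (e + e') i j := by
    rw [coeff_mul]
    exact T.locA_sum hu fun t _ => T.locA_mul (hv.coeff_mem _) (hw.coeff_mem _)
  rw [coeff_mul] at hb
  obtain ⟨⟨b1, b2⟩, hb12, hne⟩ := Finset.exists_ne_zero_of_sum_ne_zero hb
  rw [Finset.HasAntidiagonal.mem_antidiagonal] at hb12
  simp only at hb12 hne
  obtain ⟨h3, h4, h5, -⟩ := hv b1 (left_ne_zero_of_mul hne)
  obtain ⟨h3', h4', h5', -⟩ := hw b2 (right_ne_zero_of_mul hne)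
  subst hb12
  refine ⟨?_, ?_, ?_, h1⟩
  · intro p hp
    rcases Finset.mem_union.1 (Finsupp.support_add hp) with h | h
    · exact h3 p h
    · exact h3' p h
  · rw [map_add, h4, h4']
  · rw [map_add, h5, h5']

theorem C_mem {a : T.L} (ha : a ∈ T.locA e i j) : T.Bih k e 0 0 i j (C a) := by
  classical
  intro b hb
  rw [coeff_C] at hb ⊢
  split_ifs at hb ⊢ with h
  · subst h
    exact ⟨by simp, by simp, by simp, ha⟩
  · exact absurd rfl hb

theorem X_mem {s : ℕ} {l : Fin n} (hs : s < k) : T.Bih k 0 (s + 1) 1 i j (X (s, l)) := by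
  classical
  intro b hb
  rw [coeff_X] at hb ⊢
  split_ifs at hb ⊢ with h
  · subst h
    refine ⟨?_, ?_, by simp, T.locA_of_A (Subalgebra.one_mem _)⟩
    · intro p hp
      rw [Finsupp.mem_support_iff, Finsupp.single_apply] at hp
      split_ifs at hp with h2
      · rw [← h2]
        exact hs
      · exact absurd rfl hp
    · rw [Finsupp.weight_single]
      simp [FF.w]
  · exact absurd rfl hb

theorem C_mul (hu : T.u i j ∈ T.A i) {a : T.L} (ha : a ∈ T.locA e' i j) {w : T.BB}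
    (hw : T.Bih k e m q i j w) : T.Bih k (e' + e) m q i j (C a * w) := by
  have := (C_mem (k := k) ha).mul hu hw
  simpa using this

theorem sum (hu : T.u i j ∈ T.A i) {ι : Type*} {s : Finset ι} {f : ι → T.BB}
    (h : ∀ t ∈ s, T.Bih k e m q i j (f t)) : T.Bih k e m q i j (∑ t ∈ s, f t) := by
  classical
  induction s using Finset.induction_on with
  | empty => simpa using zero
  | insert a s ha ih =>
    rw [Finset.sum_insert ha]
    exact (h a (Finset.mem_insert_self _ _)).add hu (ih fun t ht => h t (Finset.mem_insert_of_mem ht))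

theorem prod (hu : T.u i j ∈ T.A i) {ι : Type*} {s : Finset ι} {f : ι → T.BB} {μ : ι → ℕ}
    (h : ∀ t ∈ s, T.Bih k 0 (μ t) 1 i j (f t)) : T.Bih k 0 (∑ t ∈ s, μ t) s.card i j (∏ t ∈ s, f t) := by
  classical
  induction s using Finset.induction_on with
  | empty =>
    have := C_mem (T := T) (k := k) (e := 0) (i := i) (j := j) (a := 1) (T.locA_of_A (Subalgebra.one_mem _))
    simpa using this
  | insert a s ha ih =>
    rw [Finset.prod_insert ha, Finset.sum_insert ha, Finset.card_insert_of_notMem ha, add_comm s.card 1]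
    have := (h a (Finset.mem_insert_self _ _)).mul hu (ih fun t ht => h t (Finset.mem_insert_of_mem ht))
    simpa using this

end Bih

section

variable {T}

theorem GG_mul_δ {k : ℕ} {e : ℤ} {m q : ℕ} {i : Fin (n + 2)} {v : T.BB} (hv : v ∈ T.GG k e m q i) {s : ℕ}
    (hs : s < k) (l : Fin (n + 2)) : v * T.δ s (T.x l / T.x i) ∈ T.GG k e (m + (s + 1)) (q + 1) i := by
  refine Submodule.span_induction (p := fun v _ => v * T.δ s (T.x l / T.x i) ∈ T.GG k e (m + (s + 1)) (q + 1) i)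
    ?_ ?_ ?_ ?_ hv
  · rintro _ ⟨a, ha, s', l', hm, rfl⟩
    refine Submodule.subset_span ⟨a, ha, Fin.snoc s' ⟨s, hs⟩, Fin.snoc l' l, ?_, ?_⟩
    · rw [Fin.sum_univ_castSucc]
      simp only [Fin.snoc_castSucc, Fin.snoc_last]
      rw [hm]
    · rw [Fin.prod_univ_castSucc]
      simp only [Fin.snoc_castSucc, Fin.snoc_last]
      ring
  · rw [zero_mul]
    exact Submodule.zero_mem _
  · intro v w _ _ h1 h2
    rw [add_mul]
    exact Submodule.add_mem _ h1 h2
  · intro c v _ h1
    rw [smul_mul_assoc]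
    exact Submodule.smul_mem _ c h1

theorem GG_mul_pow {k : ℕ} {e : ℤ} {m q : ℕ} {i : Fin (n + 2)} {v : T.BB} (hv : v ∈ T.GG k e m q i) {s : ℕ}
    (hs : s < k) (l : Fin (n + 2)) (t : ℕ) :
    v * T.δ s (T.x l / T.x i) ^ t ∈ T.GG k e (m + t * (s + 1)) (q + t) i := by
  induction t with
  | zero => simpa using hv
  | succ t ih =>
    have := GG_mul_δ ih hs l
    rw [pow_succ, ← mul_assoc, add_mul, one_mul, ← add_assoc, ← add_assoc]
    exact this

theorem GG_mul_monomial (k : ℕ) (e : ℤ) (i : Fin (n + 2)) (f : Fin n → Fin (n + 2)) (b : ℕ × Fin n →₀ ℕ) :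
    (∀ p ∈ b.support, p.1 < k) → ∀ (m q : ℕ) (v : T.BB), v ∈ T.GG k e m q i →
      v * b.prod (fun p t => T.δ p.1 (T.x (f p.2) / T.x i) ^ t) ∈
        T.GG k e (m + Finsupp.weight FF.w b) (q + b.degree) i := by
  classical
  induction b using Finsupp.induction_linear with
  | zero => intro _ m q v hv; simpa using hv
  | add b b' h1 h2 =>
    intro hb m q v hv
    have hb1 : ∀ p ∈ b.support, p.1 < k := fun p hp => hb p (by
      rw [Finsupp.mem_support_iff] at hp ⊢
      rw [Finsupp.add_apply]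
      omega)
    have hb2 : ∀ p ∈ b'.support, p.1 < k := fun p hp => hb p (by
      rw [Finsupp.mem_support_iff] at hp ⊢
      rw [Finsupp.add_apply]
      omega)
    have h3 := h2 hb2 _ _ _ (h1 hb1 m q v hv)
    rw [Finsupp.prod_add_index' (by simp) (fun p a b => pow_add _ _ _), map_add, map_add, ← mul_assoc,
      ← add_assoc, ← add_assoc]
    exact h3
  | single p t =>
    intro hb m q v hv
    rw [Finsupp.prod_single_index (by simp), Finsupp.weight_single, Finsupp.degree_single, smul_eq_mul]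
    rcases Nat.eq_zero_or_pos t with h | h
    · subst h
      simpa using hv
    · exact GG_mul_pow hv (hb p (by
        rw [Finsupp.mem_support_iff, Finsupp.single_eq_same]
        omega)) _ t

theorem C_mem_GG {k : ℕ} {e : ℤ} {i : Fin (n + 2)} {a : T.L} (ha : a ∈ T.OO e i) :
    (C a : T.BB) ∈ T.GG k e 0 0 i := by
  obtain ⟨c, hc, rfl⟩ := (T.mem_OO e i a).1 ha
  exact Submodule.subset_span ⟨c, hc, Fin.elim0, Fin.elim0, by simp, by simp⟩

end

theorem δ_one_h1 (s : ℕ) : T.δ s 1 = 0 := by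
  unfold δ
  refine Finset.sum_eq_zero fun l _ => ?_
  rw [Derivation.map_one_eq_zero, map_zero, zero_mul]

theorem σ_C (i : Fin (n + 2)) (j : Fin (n + 1)) (a : T.L) : T.σ i j (C a) = C a := by
  unfold σ
  rw [aeval_C, algebraMap_eq]

theorem σ_X (i : Fin (n + 2)) (j : Fin (n + 1)) (p : ℕ × Fin n) : T.σ i j (X p) = T.δ p.1 (T.y i j p.2) := by
  unfold σ
  rw [aeval_X]

theorem σ_eq_sum (i : Fin (n + 2)) (j : Fin (n + 1)) (w : T.BB) :
    T.σ i j w = ∑ b ∈ w.support, C (coeff b w) * b.prod (fun p t => T.δ p.1 (T.y i j p.2) ^ t) := by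
  unfold σ
  rw [aeval_def, eval₂_eq]
  rfl

/-- LOCGG, with the facts of `A1` as hypotheses. -/
theorem loc_GG_aux (i : Fin (n + 2)) (j : Fin (n + 1)) (hu : ∀ l, T.u i l ∈ T.A i)
    (hne : T.u i (i.succAbove j) ≠ 0) (hrel : ∀ s : ℕ, ∑ l, C (T.u i l) * T.δ s (T.x l / T.x i) = 0)
    (k : ℕ) (e : ℤ) (m q : ℕ) (v : T.BB) :
    (∃ N : ℕ, C (T.u i (i.succAbove j)) ^ N * v ∈ T.GG k e m q i) ↔
    ∃ w : T.BB, v = T.σ i j w ∧ ∀ b, coeff b w ≠ 0 → (∀ p ∈ b.support, p.1 < k) ∧ Finsupp.weight FF.w b = m ∧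
      b.degree = q ∧ coeff b w ∈ T.locA e i (i.succAbove j) := by
  classical
  have hu' := hu (i.succAbove j)
  constructor
  · rintro ⟨N, hN⟩
    have key : ∀ v ∈ T.GG k e m q i, ∃ w : T.BB, v = T.σ i j w ∧ T.Bih k e m q i (i.succAbove j) w := by
      intro v hv
      -- the symbols
      have hδ : ∀ (s : ℕ) (l : Fin (n + 2)), s < k → ∃ w : T.BB, T.δ s (T.x l / T.x i) = T.σ i j w ∧
          T.Bih k 0 (s + 1) 1 i (i.succAbove j) w := by
        intro s l hs
        rcases Fin.eq_self_or_eq_succAbove i l with h | ⟨l', h⟩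
        · subst h
          refine ⟨0, ?_, Bih.zero⟩
          rw [div_self (T.x_ne l), δ_one_h1, map_zero]
        rcases Fin.eq_self_or_eq_succAbove j l' with h' | ⟨l'', h'⟩
        · subst h'
          subst h
          refine ⟨∑ t : Fin n, C (-(T.u i (i.succAbove l'))⁻¹ * T.u i (i.succAbove (l'.succAbove t))) * X (s, t),
            ?_, ?_⟩
          · have h1 := hrel s
            rw [Fin.sum_univ_succAbove _ i, Fin.sum_univ_succAbove _ l'] at h1
            rw [div_self (T.x_ne i), δ_one_h1, mul_zero, zero_add] at h1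
            have h2 : C (T.u i (i.succAbove l')) * T.δ s (T.x (i.succAbove l') / T.x i) =
                -∑ t : Fin n, C (T.u i (i.succAbove (l'.succAbove t))) *
                  T.δ s (T.x (i.succAbove (l'.succAbove t)) / T.x i) := eq_neg_of_add_eq_zero_left h1
            have h3 : T.δ s (T.x (i.succAbove l') / T.x i) = C (T.u i (i.succAbove l'))⁻¹ *
                (C (T.u i (i.succAbove l')) * T.δ s (T.x (i.succAbove l') / T.x i)) := by
              rw [← mul_assoc, ← C_mul, inv_mul_cancel₀ hne, C_1, one_mul]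
            rw [h3, h2, mul_neg, Finset.mul_sum, map_sum, ← Finset.sum_neg_distrib]
            refine Finset.sum_congr rfl fun t _ => ?_
            rw [map_mul, σ_C, σ_X, ← mul_assoc, ← C_mul]
            simp only [y]
            rw [← neg_mul, ← C_neg, neg_mul]
          · refine Bih.sum hu' fun t _ => ?_
            have h1 : -(T.u i (i.succAbove l'))⁻¹ * T.u i (i.succAbove (l'.succAbove t)) ∈
                T.locA 0 i (i.succAbove l') := by
              have h2 := T.locA_div (e := 0) (i := i) (j := i.succAbove l') 1 hne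
                (T.locA_of_A (Subalgebra.neg_mem _ (hu (i.succAbove (l'.succAbove t)))))
              rw [pow_one] at h2
              rw [neg_mul_comm]
              exact h2
            have := Bih.C_mul (k := k) hu' h1 (Bih.X_mem (T := T) (i := i) (j := i.succAbove l') (l := t) hs)
            simpa using this
        · subst h'
          subst h
          refine ⟨X (s, l''), ?_, Bih.X_mem hs⟩
          rw [σ_X]
          rfl
      refine Submodule.span_induction (p := fun v _ => ∃ w : T.BB, v = T.σ i j w ∧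
        T.Bih k e m q i (i.succAbove j) w) ?_ ?_ ?_ ?_ hv
      · rintro _ ⟨a, ha, s, l, hm, rfl⟩
        choose w hw1 hw2 using fun r => hδ (s r) (l r) (s r).2
        refine ⟨C (T.x i ^ e * a) * ∏ r, w r, ?_, ?_⟩
        · rw [map_mul (T.σ i j), σ_C, map_prod]
          congr 1
          exact Finset.prod_congr rfl fun r _ => hw1 r
        · have h1 := Bih.prod (s := Finset.univ) hu' (fun r _ => hw2 r)
          rw [Finset.card_univ, Fintype.card_fin, hm] at h1
          have h2 : T.x i ^ e * a ∈ T.locA e i (i.succAbove j) :=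
            T.locA_of_OO ((T.mem_OO e i _).2 ⟨a, ha, rfl⟩)
          simpa using Bih.C_mul hu' h2 h1
      · exact ⟨0, by rw [map_zero], Bih.zero⟩
      · rintro v v' _ _ ⟨w, rfl, hw⟩ ⟨w', rfl, hw'⟩
        exact ⟨w + w', by rw [map_add], hw.add hu' hw'⟩
      · rintro c v _ ⟨w, rfl, hw⟩
        refine ⟨C (algebraMap K T.L c) * w, ?_, ?_⟩
        · rw [map_mul, σ_C]
          rw [← IsScalarTower.algebraMap_smul T.L c, smul_eq_C_mul]
        · have h1 : algebraMap K T.L c ∈ T.locA 0 i (i.succAbove j) :=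
            T.locA_of_A (Subalgebra.algebraMap_mem _ c)
          simpa using hw.C_mul hu' h1
    obtain ⟨w, hw1, hw2⟩ := key _ hN
    refine ⟨C (T.u i (i.succAbove j) ^ N)⁻¹ * w, ?_, ?_⟩
    · rw [map_mul, σ_C, ← hw1, ← mul_assoc, ← C_pow, ← C_mul, inv_mul_cancel₀ (pow_ne_zero _ hne), C_1, one_mul]
    · intro b hb
      rw [coeff_C_mul] at hb ⊢
      obtain ⟨h1, h2, h3, h4⟩ := hw2 b (right_ne_zero_of_mul hb)
      exact ⟨h1, h2, h3, T.locA_div N hne h4⟩
  · rintro ⟨w, rfl, hw⟩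
    have h1 : ∀ b ∈ w.support, ∃ N : ℕ, T.u i (i.succAbove j) ^ N * coeff b w ∈ T.OO e i :=
      fun b hb => (hw b (mem_support_iff.1 hb)).2.2.2
    choose! N hN using h1
    refine ⟨∑ b ∈ w.support, N b, ?_⟩
    rw [σ_eq_sum, Finset.mul_sum]
    refine Submodule.sum_mem _ fun b hb => ?_
    obtain ⟨h2, h3, h4, -⟩ := hw b (mem_support_iff.1 hb)
    have h5 : T.u i (i.succAbove j) ^ (∑ b ∈ w.support, N b) * coeff b w ∈ T.OO e i := by
      rw [← Finset.sum_erase_add _ _ hb, pow_add, mul_assoc]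
      exact T.A_mul_OO (Subalgebra.pow_mem _ hu' _) (hN b hb)
    rw [← mul_assoc, ← C_pow, ← C_mul]
    have h6 := GG_mul_monomial (T := T) k e i (fun l => i.succAbove (j.succAbove l)) b h2 0 0 _ (C_mem_GG h5)
    rw [zero_add, zero_add, h3, h4] at h6
    exact h6

end Pool.Agent.H47.UG.FF
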