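import Pool.Agent.H1.UG.LocGG
import Pool.Agent.H33.UG.A1

set_option autoImplicit false

open MvPolynomial

namespace Pool.Agent.H47.UG.FF

variable {K : Type} [Field K] [CharZero K] {n d : ℕ} {F : HP K n} (T : FF d F) (hF : Nice d F)

include hF

/-- LOCGG -/
theorem loc_GG (hd : 2 ≤ d) (k : ℕ) (e : ℤ) (m q : ℕ) (i : Fin (n + 2)) (j : Fin (n + 1)) (v : T.BB) :
    (∃ N : ℕ, C (T.u i (i.succAbove j)) ^ N * v ∈ T.GG k e m q i) ↔
    ∃ w : T.BB, v = T.σ i j w ∧ ∀ b, coeff b w ≠ 0 → (∀ p ∈ b.support, p.1 < k) ∧ Finsupp.weight FF.w b = m ∧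
      b.degree = q ∧ coeff b w ∈ T.locA e i (i.succAbove j) :=
  T.loc_GG_aux i j (fun l => T.u_mem hF i l)
    (div_ne_zero (T.fd_ne hF hd _) (pow_ne_zero _ (T.x_ne i))) (fun s => T.rel hF i s) k e m q v

end Pool.Agent.H47.UG.FF
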