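import Pool.Agent.H47.UG.Alg
import Pool.Agent.H47.KB.Mult

/-!
# MULT over a field: spaces of polynomials over `L` vanishing to order `≥ p` at a point over `Λ`
-/

set_option autoImplicit false

open MvPolynomial

namespace Pool.Agent.H1.UG

/-- `Q` (with coefficients in `L`) vanishes to order at least `p` at the point `c` over `Λ`. -/
def VanK {L Λ ι : Type*} [CommRing L] [CommRing Λ] [Algebra L Λ] (p : ℕ) (Q : MvPolynomial ι L) (c : ι → Λ) :
    Prop :=
  ∀ a : ι →₀ ℕ, a.degree < p → coeff a (aeval (fun i => (X i + C (c i) : MvPolynomial ι Λ)) Q) = 0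

section

variable {Λ ι : Type*} [CommRing Λ] (c : ι → Λ)

/-- translation -/
noncomputable def trK : MvPolynomial ι Λ →ₐ[Λ] MvPolynomial ι Λ := aeval fun i => X i + C (c i)

lemma trK_trK (Q : MvPolynomial ι Λ) : trK (-c) (trK c Q) = Q := by
  have h : (trK (-c)).comp (trK c) = AlgHom.id Λ _ := by
    ext i
    simp [trK]
  exact congrArg (fun f => f Q) h

lemma trK_injective : Function.Injective (trK c) := fun P Q h => by
  rw [← trK_trK c P, ← trK_trK c Q, h]

lemma totalDegree_trK_le [Nontrivial Λ] (Q : MvPolynomial ι Λ) : (trK c Q).totalDegree ≤ Q.totalDegree := by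
  unfold trK
  rw [aeval_def, eval₂_eq]
  refine (totalDegree_finsetSum _ _).trans (Finset.sup_le fun s hs => ?_)
  refine (totalDegree_mul _ _).trans ?_
  have h1 : (algebraMap Λ (MvPolynomial ι Λ) (coeff s Q)).totalDegree = 0 := by
    rw [algebraMap_eq]
    exact totalDegree_C _
  rw [h1, zero_add]
  refine (totalDegree_finsetProd _ _).trans ?_
  have h2 : ∀ i ∈ s.support, ((X i + C (c i) : MvPolynomial ι Λ) ^ s i).totalDegree ≤ s i := by
    intro i _
    refine (totalDegree_pow _ _).trans ?_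
    have h3 : (X i + C (c i) : MvPolynomial ι Λ).totalDegree ≤ 1 := by
      refine (totalDegree_add _ _).trans ?_
      rw [totalDegree_X, totalDegree_C]
      simp
    calc s i * _ ≤ s i * 1 := Nat.mul_le_mul_left _ h3
      _ = s i := mul_one _
  refine (Finset.sum_le_sum h2).trans ?_
  exact le_totalDegree hs

end

/-- A polynomial of degree `< p` vanishing to order `≥ p` at a point is zero. -/
lemma eq_zero_of_lowK {L Λ ι : Type*} [Field L] [Field Λ] [Algebra L Λ] {p : ℕ} {c : ι → Λ}
    {Q : MvPolynomial ι L} (h : VanK p Q c) (hd : ∀ s ∈ Q.support, s.degree < p) : Q = 0 := by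
  classical
  by_contra hQ
  have hinj : Function.Injective (MvPolynomial.map (σ := ι) (algebraMap L Λ)) :=
    MvPolynomial.map_injective _ (algebraMap L Λ).injective
  have hQ' : MvPolynomial.map (algebraMap L Λ) Q ≠ 0 := fun h0 => hQ (hinj (by rw [h0, map_zero]))
  have hsupp : (MvPolynomial.map (algebraMap L Λ) Q).support ⊆ Q.support := support_map_subset _ _
  have hne : (MvPolynomial.map (algebraMap L Λ) Q).support.Nonempty := by
    rwa [Finset.nonempty_iff_ne_empty, Ne, support_eq_empty]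
  have h2 : (MvPolynomial.map (algebraMap L Λ) Q).totalDegree < p := by
    unfold totalDegree
    rw [Finset.sup_lt_iff]
    · intro s hs
      exact hd s (hsupp hs)
    · obtain ⟨s, hs⟩ := hne
      exact lt_of_le_of_lt (Nat.zero_le _) (hd s (hsupp hs))
  have h3 : trK c (MvPolynomial.map (algebraMap L Λ) Q) ≠ 0 := fun h0 => hQ' (trK_injective c (by rw [h0, map_zero]))
  have h8 : trK c (MvPolynomial.map (algebraMap L Λ) Q) =
      aeval (fun i => (X i + C (c i) : MvPolynomial ι Λ)) Q := by
    unfold trK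
    rw [aeval_map_algebraMap]
  apply h3
  ext s
  rw [coeff_zero]
  by_cases hs : s.degree < p
  · rw [h8]
    exact h s hs
  · by_contra hc
    have h4 : s ∈ (trK c (MvPolynomial.map (algebraMap L Λ) Q)).support := mem_support_iff.2 hc
    have h5 := le_totalDegree h4
    have h6 := totalDegree_trK_le c (MvPolynomial.map (algebraMap L Λ) Q)
    have h7 : s.degree = s.sum fun _ e => e := rfl
    omega

/-- MULT, general form: the monomials of the elements of `U` lie in `S`, all elements of `U` vanish to order at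
least `p` at the point `c` over `Λ`; then `dim U` is at most the number of the elements of `S` of degree
`≥ p`. -/
theorem mult_gen {L Λ ι : Type*} [Field L] [Field Λ] [Algebra L Λ] (c : ι → Λ) (p : ℕ) (S : Set (ι →₀ ℕ))
    [Finite {a : ι →₀ ℕ // a ∈ S ∧ p ≤ a.degree}] (U : Submodule L (MvPolynomial ι L))
    (h1 : ∀ Q ∈ U, ∀ a ∈ Q.support, a ∈ S) (h2 : ∀ Q ∈ U, VanK p Q c) :
    FiniteDimensional L U ∧
      Module.finrank L U ≤ Nat.card {a : ι →₀ ℕ // a ∈ S ∧ p ≤ a.degree} := by
  classical
  have : Fintype {a : ι →₀ ℕ // a ∈ S ∧ p ≤ a.degree} := Fintype.ofFinite _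
  let Φ : U →ₗ[L] ({a : ι →₀ ℕ // a ∈ S ∧ p ≤ a.degree} → L) :=
    { toFun := fun Q a => coeff a.1 Q.1
      map_add' := fun _ _ => by funext a; simp
      map_smul' := fun _ _ => by funext a; simp }
  have hΦ : Function.Injective Φ := by
    rw [← LinearMap.ker_eq_bot, LinearMap.ker_eq_bot']
    intro Q hQ
    apply Subtype.ext
    refine eq_zero_of_lowK (h2 Q.1 Q.2) fun s hs => ?_
    by_contra hlt
    push Not at hlt
    exact (mem_support_iff.1 hs) (congrFun hQ ⟨s, h1 Q.1 Q.2 s hs, hlt⟩)
  refine ⟨Module.Finite.of_injective Φ hΦ, ?_⟩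
  have h := LinearMap.finrank_le_finrank_of_injective hΦ
  rwa [Module.finrank_fintype_fun_eq_card, ← Nat.card_eq_fintype_card] at h

/-- The monomials of weight `m`, degree at least `p` and orders `< k`, as monomials in `ℕ × Fin n`. -/
noncomputable def monE (n k m p : ℕ) :
    {a : ℕ × Fin n →₀ ℕ // a ∈ {a : ℕ × Fin n →₀ ℕ | (∀ x ∈ a.support, x.1 < k) ∧
      Finsupp.weight (fun x : ℕ × Fin n => x.1 + 1) a = m} ∧ p ≤ a.degree} → Pool.Agent.H47.KB.Mon n k m p :=
  fun a => ⟨Finsupp.comapDomain (fun x : Fin k × Fin n => ((x.1 : ℕ), x.2)) a.1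
    (by
      intro x _ y _ h
      simp only [Prod.mk.injEq] at h
      exact Prod.ext (Fin.ext h.1) h.2), by
    obtain ⟨a, ⟨h1, h2⟩, h3⟩ := a
    have hinj : Function.Injective (fun x : Fin k × Fin n => ((x.1 : ℕ), x.2)) := by
      intro x y h
      simp only [Prod.mk.injEq] at h
      exact Prod.ext (Fin.ext h.1) h.2
    have key : Finsupp.mapDomain (fun x : Fin k × Fin n => ((x.1 : ℕ), x.2))
        (Finsupp.comapDomain (fun x : Fin k × Fin n => ((x.1 : ℕ), x.2)) a hinj.injOn) = a := by
      refine Finsupp.mapDomain_comapDomain _ hinj a fun x hx => ?_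
      exact ⟨(⟨x.1, h1 x hx⟩, x.2), rfl⟩
    constructor
    · have h4 : Finsupp.weight (fun x : ℕ × Fin n => x.1 + 1)
          (Finsupp.mapDomain (fun x : Fin k × Fin n => ((x.1 : ℕ), x.2))
            (Finsupp.comapDomain (fun x : Fin k × Fin n => ((x.1 : ℕ), x.2)) a hinj.injOn)) = m := by
        rw [key]
        exact h2
      rw [Finsupp.weight_apply, Finsupp.sum_mapDomain_index (by simp) (fun _ _ _ => add_smul _ _ _)] at h4
      rw [Finsupp.weight_apply]
      exact h4
    · have h5 : p ≤ (Finsupp.mapDomain (fun x : Fin k × Fin n => ((x.1 : ℕ), x.2))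
            (Finsupp.comapDomain (fun x : Fin k × Fin n => ((x.1 : ℕ), x.2)) a hinj.injOn)).degree := by
        rw [key]
        exact h3
      rwa [Finsupp.degree_mapDomain] at h5⟩

theorem monE_injective (n k m p : ℕ) : Function.Injective (monE n k m p) := by
  rintro ⟨a, ⟨h1, h2⟩, h3⟩ ⟨b, ⟨h1', h2'⟩, h3'⟩ h
  apply Subtype.ext
  ext x
  have h4 := congrArg Subtype.val h
  by_cases hx : x.1 < k
  · have h5 := DFunLike.congr_fun h4 (⟨x.1, hx⟩, x.2)
    exact h5
  · have h6 : a x = 0 := by
      by_contra hc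
      exact hx (h1 x (Finsupp.mem_support_iff.2 hc))
    have h7 : b x = 0 := by
      by_contra hc
      exact hx (h1' x (Finsupp.mem_support_iff.2 hc))
    simp only [h6, h7]

/-- MULT for the jet coordinates `X(s,l)`: an `L`-space of polynomials of order `≤ k` and weight `m` all of
which vanish to order at least `p` at a point over `Λ`. -/
theorem multK {L Λ : Type*} [Field L] [Field Λ] [Algebra L Λ] {n : ℕ} (k m p : ℕ) (c : ℕ × Fin n → Λ)
    (U : Submodule L (MvPolynomial (ℕ × Fin n) L))
    (h1 : ∀ Q ∈ U, ∀ a ∈ Q.support, (∀ x ∈ a.support, x.1 < k) ∧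
      Finsupp.weight (fun x : ℕ × Fin n => x.1 + 1) a = m)
    (h2 : ∀ Q ∈ U, VanK p Q c) :
    FiniteDimensional L U ∧ Module.finrank L U ≤ Nat.card (Pool.Agent.H47.KB.Mon n k m p) := by
  have hf : Finite {a : ℕ × Fin n →₀ ℕ // a ∈ {a : ℕ × Fin n →₀ ℕ | (∀ x ∈ a.support, x.1 < k) ∧
      Finsupp.weight (fun x : ℕ × Fin n => x.1 + 1) a = m} ∧ p ≤ a.degree} :=
    Finite.of_injective _ (monE_injective n k m p)
  obtain ⟨h3, h4⟩ := mult_gen c p {a : ℕ × Fin n →₀ ℕ | (∀ x ∈ a.support, x.1 < k) ∧
      Finsupp.weight (fun x : ℕ × Fin n => x.1 + 1) a = m} U h1 h2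
  exact ⟨h3, h4.trans (Nat.card_le_card_of_injective _ (monE_injective n k m p))⟩

end Pool.Agent.H1.UG
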