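import Mathlib

/-!
# Nullstellensatz over a field with an algebraically closed extension, and clearing of denominators
-/

set_option autoImplicit false

open MvPolynomial

namespace Pool.Agent.H1.UG

/-- Nullstellensatz, finitely many variables. -/
theorem nss_fin {L Λ σ : Type*} [Field L] [Field Λ] [Algebra L Λ] [IsAlgClosed Λ] [Finite σ]
    (S : Set (MvPolynomial σ L)) (f : MvPolynomial σ L)
    (h : ∀ x : σ → Λ, (∀ g ∈ S, aeval x g = 0) → aeval x f = 0) : ∃ N : ℕ, f ^ N ∈ Ideal.span S := by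
  have h1 : f ∈ (Ideal.span S).radical := by
    rw [← vanishingIdeal_zeroLocus_eq_radical (K := Λ), mem_vanishingIdeal_iff]
    intro x hx
    refine h x fun g hg => ?_
    exact (mem_zeroLocus_iff.1 hx) g (Ideal.subset_span hg)
  exact h1

/-- Nullstellensatz, any type of variables, all the polynomials lying in the finitely many variables `V`. -/
theorem nss {L Λ σ : Type*} [Field L] [Field Λ] [Algebra L Λ] [IsAlgClosed Λ] (V : Set σ) [Finite V]
    (S : Set (MvPolynomial σ L)) (hS : ∀ g ∈ S, ∃ g' : MvPolynomial V L, rename Subtype.val g' = g)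
    (f : MvPolynomial σ L) (hf : ∃ f' : MvPolynomial V L, rename Subtype.val f' = f)
    (h : ∀ x : σ → Λ, (∀ g ∈ S, aeval x g = 0) → aeval x f = 0) : ∃ N : ℕ, f ^ N ∈ Ideal.span S := by
  classical
  obtain ⟨f', rfl⟩ := hf
  obtain ⟨N, hN⟩ := nss_fin (Λ := Λ) {g' : MvPolynomial V L | rename Subtype.val g' ∈ S} f' (by
    intro x hx
    set y : σ → Λ := fun i => if hi : i ∈ V then x ⟨i, hi⟩ else 0 with hy
    have hyx : y ∘ (Subtype.val : V → σ) = x := by
      funext i
      simp [hy, i.2]
    have h1 := h y (by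
      intro g hg
      obtain ⟨g', rfl⟩ := hS g hg
      rw [aeval_rename, hyx]
      exact hx g' hg)
    rwa [aeval_rename, hyx] at h1)
  refine ⟨N, ?_⟩
  have h2 : Ideal.span {g' : MvPolynomial V L | rename Subtype.val g' ∈ S} ≤
      (Ideal.span S).comap (rename (Subtype.val : V → σ) : MvPolynomial V L →ₐ[L] MvPolynomial σ L) := by
    rw [Ideal.span_le]
    intro g' hg'
    exact Ideal.subset_span hg'
  have h3 := h2 hN
  rw [Ideal.mem_comap, map_pow] at h3
  exact h3

section clear

variable {R L : Type*} [CommRing R] [Field L] (φ : R →+* L)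

/-- A common denominator of finitely many elements. -/
theorem exists_common_den (hφ : ∀ u : L, ∃ a b : R, φ b ≠ 0 ∧ u = φ a / φ b) {ι : Type*} (s : Finset ι)
    (u : ι → L) : ∃ b : R, φ b ≠ 0 ∧ ∀ i ∈ s, ∃ a : R, φ b * u i = φ a := by
  classical
  induction s using Finset.induction_on with
  | empty => exact ⟨1, by simp, by simp⟩
  | insert i s hi ih =>
    obtain ⟨b, hb, h⟩ := ih
    obtain ⟨a', b', hb', hu⟩ := hφ (u i)
    refine ⟨b * b', by rw [map_mul]; exact mul_ne_zero hb hb', fun j hj => ?_⟩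
    rcases Finset.mem_insert.1 hj with rfl | hj
    · refine ⟨b * a', ?_⟩
      rw [hu, map_mul, map_mul]
      field_simp
    · obtain ⟨a, ha⟩ := h j hj
      refine ⟨b' * a, ?_⟩
      rw [map_mul, map_mul, ← ha]
      ring

/-- A common denominator of finitely many polynomials. -/
theorem exists_common_den_poly (hφ : ∀ u : L, ∃ a b : R, φ b ≠ 0 ∧ u = φ a / φ b) {σ ι : Type*} (s : Finset ι)
    (P : ι → MvPolynomial σ L) :
    ∃ b : R, φ b ≠ 0 ∧ ∀ i ∈ s, ∃ A : MvPolynomial σ R, C (φ b) * P i = map φ A := by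
  classical
  obtain ⟨b, hb, h⟩ := exists_common_den φ hφ (s.sigma fun i => (P i).support) fun t => coeff t.2 (P t.1)
  refine ⟨b, hb, fun i hi => ?_⟩
  have h' : ∀ m ∈ (P i).support, ∃ a : R, φ b * coeff m (P i) = φ a := fun m hm =>
    h ⟨i, m⟩ (Finset.mem_sigma.2 ⟨hi, hm⟩)
  choose! a ha using h'
  refine ⟨∑ m ∈ (P i).support, monomial m (a m), ?_⟩
  rw [map_sum]
  simp only [map_monomial]
  conv_lhs => rw [(P i).as_sum]
  rw [Finset.mul_sum]
  refine Finset.sum_congr rfl fun m hm => ?_
  rw [C_mul_monomial, ha m hm]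

/-- CLEARING: a relation over the field of fractions gives a relation over `R` modulo the kernel. -/
theorem clear (hφ : ∀ u : L, ∃ a b : R, φ b ≠ 0 ∧ u = φ a / φ b) {σ ι : Type*} (G : ι → MvPolynomial σ R)
    (f : MvPolynomial σ R) (h : map φ f ∈ Ideal.span (Set.range fun i => map φ (G i))) :
    ∃ (B : R) (s : Finset ι) (A : ι → MvPolynomial σ R), φ B ≠ 0 ∧
      map φ (C B * f) = map φ (∑ i ∈ s, A i * G i) := by
  classical
  rw [Ideal.span, Finsupp.mem_span_range_iff_exists_finsupp] at h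
  obtain ⟨c, hc⟩ := h
  obtain ⟨B, hB, hA⟩ := exists_common_den_poly φ hφ c.support fun i => c i
  choose! A hA using hA
  refine ⟨B, c.support, A, hB, ?_⟩
  rw [map_mul, map_C, ← hc, map_sum, Finsupp.sum, Finset.mul_sum]
  refine Finset.sum_congr rfl fun i hi => ?_
  rw [map_mul, ← hA i hi, smul_eq_mul, mul_assoc]

end clear

/-- CERTIFICATE: `Λ` algebraically closed over `L`, `L` consists of the fractions of the image of `R`; if the
`G i` (with coefficients in `R`, in the variables of the finite set `V`) have no common zero over `Λ` outside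
`f = 0`, then `B f ^ N` is a combination of the `G i` modulo the kernel of `R → L`, `B ≠ 0` in `L`. -/
theorem certificate {R L Λ σ ι : Type*} [CommRing R] [Field L] [Field Λ] [Algebra L Λ] [IsAlgClosed Λ]
    (φ : R →+* L) (hφ : ∀ u : L, ∃ a b : R, φ b ≠ 0 ∧ u = φ a / φ b) (V : Set σ) [Finite V]
    (G : ι → MvPolynomial σ R) (hG : ∀ i, (↑(G i).vars : Set σ) ⊆ V) (f : MvPolynomial σ R)
    (hf : (↑f.vars : Set σ) ⊆ V)
    (h : ∀ x : σ → Λ, (∀ i, eval₂ ((algebraMap L Λ).comp φ) x (G i) = 0) →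
      eval₂ ((algebraMap L Λ).comp φ) x f = 0) :
    ∃ (N : ℕ) (B : R) (s : Finset ι) (A : ι → MvPolynomial σ R), φ B ≠ 0 ∧
      map φ (C B * f ^ N) = map φ (∑ i ∈ s, A i * G i) := by
  classical
  have hren : ∀ P : MvPolynomial σ R, (↑P.vars : Set σ) ⊆ V →
      ∃ P' : MvPolynomial V L, rename Subtype.val P' = map φ P := by
    intro P hP
    obtain ⟨P', hP'⟩ := (exists_rename_eq_of_vars_subset_range (map φ P) (Subtype.val : V → σ)
      Subtype.val_injective (by
        rw [Subtype.range_coe]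
        intro x hx
        exact hP (vars_map _ _ hx)))
    exact ⟨P', hP'⟩
  obtain ⟨N, hN⟩ := nss (Λ := Λ) V (Set.range fun i => map φ (G i)) (by
      rintro _ ⟨i, rfl⟩
      exact hren _ (hG i)) (map φ f) (hren f hf) (by
      intro x hx
      have h1 := h x (by
        intro i
        have h2 := hx _ ⟨i, rfl⟩
        rwa [aeval_def, eval₂_map] at h2)
      rwa [aeval_def, eval₂_map])
  rw [← map_pow] at hN
  obtain ⟨B, s, A, h1, h2⟩ := clear φ hφ G (f ^ N) hN
  exact ⟨N, B, s, A, h1, h2⟩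

end Pool.Agent.H1.UG
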